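import Mathlib
import Pool.Agent.H33.BG2

set_option autoImplicit false

open Set Filter Cardinal

namespace Pool.Agent.Results.MP_cc0654_lc.BorelGammaGroup

/-- An omega cover: a cover not containing the whole space such that every finite set is
contained in a member. -/
def IsOmegaCover {X : Type} (𝒰 : Set (Set X)) : Prop :=
  ⋃₀ 𝒰 = Set.univ ∧ Set.univ ∉ 𝒰 ∧ ∀ F : Set X, F.Finite → ∃ U ∈ 𝒰, F ⊆ U

/-- A gamma cover: an infinite cover such that every point lies in all but finitely many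
members. -/
def IsGammaCover {X : Type} (𝒰 : Set (Set X)) : Prop :=
  ⋃₀ 𝒰 = Set.univ ∧ 𝒰.Infinite ∧ ∀ x : X, {U | U ∈ 𝒰 ∧ x ∉ U}.Finite

/-- A countable family of Borel sets. -/
def IsCountableBorel {X : Type} [TopologicalSpace X] (𝒰 : Set (Set X)) : Prop :=
  𝒰.Countable ∧ ∀ U ∈ 𝒰, @MeasurableSet X (borel X) U

/-- The selection principle `S₁(A, B)`. -/
def S1 {X : Type} (A B : Set (Set X) → Prop) : Prop :=
  ∀ 𝒰 : ℕ → Set (Set X), (∀ n, A (𝒰 n)) → ∃ U : ℕ → Set X, (∀ n, U n ∈ 𝒰 n) ∧ B (range U)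

theorem gamma {X : Type} [Nonempty X] (U : ℕ → Set X) (h1 : ∀ n, U n ≠ Set.univ)
    (h2 : ∀ x, ∀ᶠ n in atTop, x ∈ U n) : IsGammaCover (range U) := by
  have h3 : ∀ x, {n | x ∉ U n}.Finite := fun x => by
    simpa [← Nat.cofinite_eq_atTop, eventually_cofinite] using h2 x
  refine ⟨eq_univ_of_forall fun x => ?_, fun h => ?_, fun x => ((h3 x).image U).subset ?_⟩
  · obtain ⟨n, hn⟩ := (h2 x).exists
    exact ⟨_, ⟨n, rfl⟩, hn⟩
  · choose g hg using fun V : range U => (ne_univ_iff_exists_notMem V.1).1 (by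
      obtain ⟨_, n, rfl⟩ := V
      exact h1 n)
    have := h.to_subtype
    obtain ⟨n, hn⟩ := (eventually_all.2 fun V => h2 (g V)).exists
    exact hg ⟨U n, n, rfl⟩ (hn _)
  · rintro _ ⟨⟨n, rfl⟩, h⟩
    exact ⟨n, h, rfl⟩

theorem result (CH : (𝔠 : Cardinal.{0}) = ℵ_ 1) :
    ∃ G : AddSubgroup (ℕ → ℤ), #G = 𝔠 ∧
      S1 (X := G) (fun 𝒰 => IsCountableBorel 𝒰 ∧ IsOmegaCover 𝒰)
        (fun 𝒰 => IsCountableBorel 𝒰 ∧ IsGammaCover 𝒰) ∧
      S1 (X := G) (fun 𝒰 => (∀ U ∈ 𝒰, IsOpen U) ∧ IsOmegaCover 𝒰)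
        (fun 𝒰 => (∀ U ∈ 𝒰, IsOpen U) ∧ IsGammaCover 𝒰) := by
  obtain ⟨G, G1, G2⟩ := Pool.Agent.H33.BG2.main CH.le
  have key : S1 (X := G.toAddSubgroup) (fun 𝒰 => IsCountableBorel 𝒰 ∧ IsOmegaCover 𝒰)
      IsGammaCover := fun 𝒰 h => by
    have a : ∀ n, ∃ V : ℕ → Set G.toAddSubgroup, 𝒰 n = range V := fun n => by
      obtain ⟨U, hU, -⟩ := (h n).2.2.2 ∅ finite_empty
      exact (h n).1.1.exists_eq_range ⟨U, hU⟩
    choose V hV using a
    have b : ∀ n i, V n i ∈ 𝒰 n := fun n i => (hV n).ge (mem_range_self i)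
    have c : ∀ n i, ∃ W : Set (ℕ → ℤ), MeasurableSet W ∧ Subtype.val ⁻¹' W = V n i :=
      fun n i => by
      have := (h n).1.2 _ (b n i)
      rwa [← BorelSpace.measurable_eq (α := G.toAddSubgroup)] at this
    choose W W1 W2 using c
    obtain ⟨sel, hs⟩ := G2 W W1 fun m F F1 F2 => by
      obtain ⟨U, U1, U2⟩ := (h m).2.2.2 (Subtype.val ⁻¹' F)
        (F1.preimage Subtype.val_injective.injOn)
      obtain ⟨i, rfl⟩ := (hV m).le U1
      rw [← W2] at U2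
      exact ⟨i, fun x hx => U2 (a := ⟨x, F2 hx⟩) hx⟩
    refine ⟨fun n => V n (sel n), fun n => b n _, gamma _ (fun n e => (h n).2.2.1 (e ▸ b n _))
      fun x => (hs x.1 x.2).mono fun n hn => ?_⟩
    rwa [← W2]
  refine ⟨G.toAddSubgroup, le_antisymm ((mk_set_le _).trans Pool.Agent.H33.BG2.mk_Z) ?_,
    fun 𝒰 h => ?_, fun 𝒰 h => ?_⟩
  · rw [CH, ← succ_aleph0, Order.succ_le_iff, ← not_le]
    exact fun h => G1 (le_aleph0_iff_set_countable.1 h)
  · obtain ⟨U, U1, U2⟩ := key 𝒰 h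
    exact ⟨U, U1, ⟨countable_range _, forall_mem_range.2 fun n => (h n).1.2 _ (U1 n)⟩, U2⟩
  · have a : ∀ n, ∃ 𝒱 ⊆ 𝒰 n, 𝒱.Countable ∧ ∀ F : Set G.toAddSubgroup, F.Finite →
        ∃ U ∈ 𝒱, F ⊆ U := fun n => by
      have : SecondCountableTopology G.toAddSubgroup :=
        Topology.IsInducing.subtypeVal.secondCountableTopology
      obtain ⟨B, B1, -, B2⟩ := TopologicalSpace.exists_countable_basis G.toAddSubgroup
      have b : ∀ T : {T : Set (Set G.toAddSubgroup) // T.Finite ∧ T ⊆ B},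
          ∃ U ∈ 𝒰 n, (∃ U' ∈ 𝒰 n, ⋃₀ T.1 ⊆ U') → ⋃₀ T.1 ⊆ U := fun T => by
        rcases em (∃ U' ∈ 𝒰 n, ⋃₀ T.1 ⊆ U') with ⟨U, c, d⟩ | c
        · exact ⟨U, c, fun _ => d⟩
        · obtain ⟨U, hU, -⟩ := (h n).2.2.2 ∅ finite_empty
          exact ⟨U, hU, fun d => (c d).elim⟩
      choose u u1 u2 using b
      have : Countable {T : Set (Set G.toAddSubgroup) // T.Finite ∧ T ⊆ B} :=
        (countable_ofPred_finite_subset B1).to_subtype
      refine ⟨range u, range_subset_iff.2 u1, countable_range _, fun F hF => ?_⟩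
      obtain ⟨U, c, d⟩ := (h n).2.2.2 F hF
      choose v v1 v2 v3 using fun x : F => B2.exists_subset_of_mem_open (d x.2) ((h n).1 U c)
      have := hF.to_subtype
      exact ⟨_, ⟨⟨range v, finite_range _, range_subset_iff.2 v1⟩, rfl⟩, fun x hx =>
        u2 _ ⟨U, c, sUnion_subset (forall_mem_range.2 v3)⟩ ⟨_, ⟨⟨x, hx⟩, rfl⟩, v2 _⟩⟩
    choose 𝒱 V1 V2 V3 using a
    obtain ⟨U, U1, U2⟩ := key 𝒱 fun n => ⟨⟨V2 n, fun U hU =>
      MeasurableSpace.measurableSet_generateFrom ((h n).1 U (V1 n hU))⟩,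
      eq_univ_of_forall fun x => by
        obtain ⟨U, c, d⟩ := V3 n {x} (finite_singleton x)
        exact ⟨U, c, d rfl⟩, fun e => (h n).2.2.1 (V1 n e), V3 n⟩
    exact ⟨U, fun n => V1 n (U1 n), forall_mem_range.2 fun n => (h n).1 _ (V1 n (U1 n)), U2⟩

end Pool.Agent.Results.MP_cc0654_lc.BorelGammaGroup
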